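import Pool.Agent.Q102.GG.Sieve

set_option autoImplicit false

/-!
# Goldbach graphs with respect to the small primes: paths
-/

namespace Pool.Agent.Q102.GG

open Finset

/-- `m` is an odd number, `lo ≤ m < 2 n`, and `m` is not a multiple `p k`, `k > 1`, of an odd prime
`p ≤ y` -/
def Ok (lo n y m : ℕ) : Prop :=
  Odd m ∧ lo ≤ m ∧ m < 2 * n ∧ ∀ p : ℕ, p.Prime → p ≠ 2 → p ≤ y → ∀ k : ℕ, 1 < k → m ≠ p * k

/-- the relation -/
def Rl (lo n y a b : ℕ) : Prop := a ≠ b ∧ Ok lo n y ((a + b) / 2) ∧ Ok lo n y (Nat.dist a b / 2)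

lemma Rl.symm {lo n y a b : ℕ} (h : Rl lo n y a b) : Rl lo n y b a := by
  obtain ⟨h1, h2, h3⟩ := h
  exact ⟨h1.symm, by rwa [add_comm], by rwa [Nat.dist_comm]⟩

/-- complementary types of residues modulo 12 -/
def Cm (r s : ℕ) : Prop := (r = 0 ∧ (s = 2 ∨ s = 10)) ∨ ((r = 2 ∨ r = 10) ∧ s = 0) ∨
  ((r = 4 ∨ r = 8) ∧ s = 6) ∨ (r = 6 ∧ (s = 4 ∨ s = 8))

lemma edge {lo n y a x : ℕ} (hlo : lo ≤ 3) (ha : a ≤ 2 * n) (hx : x ≤ 2 * n)
    (hc : Cm (a % 12) (x % 12)) (hd : a + 6 ≤ x ∨ x + 6 ≤ a)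
    (h1 : ∀ p : ℕ, p.Prime → 5 ≤ p → p ≤ y → ¬ (p : ℤ) ∣ (x : ℤ) - a)
    (h2 : ∀ p : ℕ, p.Prime → 5 ≤ p → p ≤ y → ¬ (p : ℤ) ∣ (x : ℤ) - (-a)) : Rl lo n y a x := by
  have hdist : Nat.dist a x = a - x + (x - a) := rfl
  have k1 : a ≠ x := by omega
  have k2 : lo ≤ (a + x) / 2 := by omega
  have k3 : (a + x) / 2 < 2 * n := by omega
  have k4 : lo ≤ Nat.dist a x / 2 := by omega
  have k5 : Nat.dist a x / 2 < 2 * n := by omega
  have hmod : (a + x) % 4 = 2 ∧ (a + x) % 3 ≠ 0 ∧ a % 3 ≠ x % 3 ∧ a % 2 = 0 := by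
    rcases hc with ⟨h3, h4 | h4⟩ | ⟨h3 | h3, h4⟩ | ⟨h3 | h3, h4⟩ | ⟨h3, h4 | h4⟩ <;>
      refine ⟨by omega, by omega, by omega, by omega⟩
  obtain ⟨m1, m2, m3, m4⟩ := hmod
  have p5 : ∀ p : ℕ, p.Prime → p ≠ 2 → p = 3 ∨ 5 ≤ p := by
    intro p hp hp2
    have := hp.two_le
    by_contra hcon
    push Not at hcon
    have : p = 4 := by omega
    subst this
    revert hp
    norm_num
  refine ⟨k1, ⟨?_, k2, k3, ?_⟩, ?_, k4, k5, ?_⟩
  · rw [Nat.odd_iff]; omega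
  · intro p hp hp2 hpy k hk heq
    rcases p5 p hp hp2 with rfl | h5
    · omega
    · apply h2 p hp h5 hpy
      refine ⟨2 * k, ?_⟩
      have : a + x = 2 * (p * k) := by omega
      have h3 : ((a + x : ℕ) : ℤ) = ((2 * (p * k) : ℕ) : ℤ) := by rw [this]
      push_cast at h3
      linarith
  · rw [Nat.odd_iff, hdist]; omega
  · intro p hp hp2 hpy k hk heq
    rw [hdist] at heq
    rcases p5 p hp hp2 with rfl | h5
    · omega
    · apply h1 p hp h5 hpy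
      rcases hd with hd | hd
      · refine ⟨2 * k, ?_⟩
        have : x = a + 2 * (p * k) := by omega
        have h3 : (x : ℤ) = ((a + 2 * (p * k) : ℕ) : ℤ) := by rw [← this]
        push_cast at h3
        linarith
      · refine ⟨-(2 * k), ?_⟩
        have : a = x + 2 * (p * k) := by omega
        have h3 : (a : ℤ) = ((x + 2 * (p * k) : ℕ) : ℤ) := by rw [← this]
        push_cast at h3
        linarith

/-- the exceptional edge -/
lemma edge6 {lo n y x : ℕ} (hlo : lo ≤ 3) (hx1 : 1 ≤ x) (hx : x + 6 ≤ 2 * n) (hc : x % 12 = 2)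
    (h1 : ∀ p : ℕ, p.Prime → 5 ≤ p → p ≤ y → ¬ (p : ℤ) ∣ (x : ℤ) - (-3)) :
    Rl lo n y x (x + 6) := by
  have hdist : Nat.dist x (x + 6) = 6 := by unfold Nat.dist; omega
  have p5 : ∀ p : ℕ, p.Prime → p ≠ 2 → p = 3 ∨ 5 ≤ p := by
    intro p hp hp2
    have := hp.two_le
    by_contra hcon
    push Not at hcon
    have : p = 4 := by omega
    subst this
    revert hp
    norm_num
  rw [Rl, hdist]
  refine ⟨by omega, ⟨?_, by omega, by omega, ?_⟩, ?_, by omega, by omega, ?_⟩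
  · rw [Nat.odd_iff]; omega
  · intro p hp hp2 hpy k hk heq
    rcases p5 p hp hp2 with rfl | h5
    · omega
    · apply h1 p hp h5 hpy
      refine ⟨k, ?_⟩
      have : x + 3 = p * k := by omega
      have h3 : ((x + 3 : ℕ) : ℤ) = ((p * k : ℕ) : ℤ) := by rw [this]
      push_cast at h3
      linarith
  · decide
  · intro p hp hp2 hpy k hk heq
    have h3 : 3 = p * k := by omega
    have h4 := hp.two_le
    have h5 : 3 ≤ p := by omega
    nlinarith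

/-- the sieve with integers -/
lemma pick : ∃ C : ℕ, 1 ≤ C ∧ ∀ (y X r : ℕ) (S : Finset ℤ) (E : Finset ℕ), S.card ≤ 4 →
    E.card ≤ 60 → C * (y + 2) ^ C ≤ X → ∃ x : ℕ, 1 ≤ x ∧ x ≤ X ∧ x ∉ E ∧ x % 12 = r % 12 ∧
      ∀ c ∈ S, ∀ p : ℕ, p.Prime → 5 ≤ p → p ≤ y → ¬ (p : ℤ) ∣ (x : ℤ) - c := by
  obtain ⟨C, hC, H⟩ := sieve4 61
  refine ⟨C, hC, ?_⟩
  intro y X r S E hS hE hX
  obtain ⟨T, hT1, hT2, hT3⟩ := H y X r (fun p => S.image (fun c : ℤ => (c % (p : ℤ)).toNat))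
    (fun p _ _ _ => card_image_le.trans hS) hX
  have hlt : E.card < T.card := by omega
  obtain ⟨x, hx1, hx2⟩ := exists_mem_notMem_of_card_lt_card hlt
  have hx3 := mem_Icc.1 (hT2 hx1)
  obtain ⟨hx4, hx5⟩ := hT3 x hx1
  refine ⟨x, hx3.1, hx3.2, hx2, hx4, ?_⟩
  intro c hc p hp hp5 hpy hdvd
  apply hx5 p hp hp5 hpy
  rw [mem_image]
  refine ⟨c, hc, ?_⟩
  have hp0 : (0 : ℤ) < p := by exact_mod_cast hp.pos
  have h1 : (x : ℤ) % p = c % p := by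
    have := Int.emod_emod_of_dvd (x : ℤ) (dvd_refl (p : ℤ))
    exact (Int.emod_emod_of_dvd _ (dvd_refl _)).symm.trans (by
      rw [Int.emod_emod_of_dvd _ (dvd_refl _)]
      exact Int.ModEq.symm (Int.modEq_iff_dvd.2 hdvd))
  rw [← h1]
  have h2 : (x : ℤ) % (p : ℤ) = ((x % p : ℕ) : ℤ) := by push_cast; rfl
  rw [h2]
  exact Int.toNat_natCast _

end Pool.Agent.Q102.GG
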