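import Pool.Agent.Q102.GG.Paths

set_option autoImplicit false

/-!
# Goldbach graphs with respect to the small primes: two vertices at distance at least five
-/

namespace Pool.Agent.Q102.GG

open Finset

/-- what a prime says about an edge -/
lemma fact {lo n y a b : ℕ} (h : Rl lo n y a b) (ha : Even a) (hb : Even b) (p : ℕ) (hp : p.Prime)
    (hp2 : p ≠ 2) (hpy : p ≤ y) :
    ((a + b) % p = 0 → a + b = 2 * p) ∧ (a % p = b % p → a = b + 2 * p ∨ b = a + 2 * p) := by
  obtain ⟨hne, ⟨o1, -, -, h1⟩, ⟨o2, -, -, h2⟩⟩ := h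
  have hd : Nat.dist a b = a - b + (b - a) := rfl
  have hodd : p % 2 = 1 := by
    rcases hp.eq_two_or_odd with h | h
    · exact absurd h hp2
    · exact h
  have hcop : Nat.Coprime p 2 := by
    rw [Nat.coprime_two_right, Nat.odd_iff]; exact hodd
  rw [Nat.even_iff] at ha hb
  constructor
  · intro h0
    have hdvd : p ∣ (a + b) / 2 := by
      apply hcop.dvd_of_dvd_mul_left
      have e : 2 * ((a + b) / 2) = a + b := by omega
      rw [e]
      exact Nat.dvd_of_mod_eq_zero h0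
    obtain ⟨k, hk⟩ := hdvd
    have hk1 := fun h => h1 p hp hp2 hpy k h hk
    have hk0 : k ≠ 0 := by
      rintro rfl
      rw [hk, mul_zero] at o1
      exact absurd o1 (by decide)
    have hk2 : k = 1 := by
      by_contra h
      exact hk1 (by omega)
    subst hk2
    omega
  · intro h0
    have hdvd : p ∣ Nat.dist a b / 2 := by
      apply hcop.dvd_of_dvd_mul_left
      have e : 2 * (Nat.dist a b / 2) = Nat.dist a b := by rw [hd]; omega
      rw [e, hd]
      rcases le_total a b with h | h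
      · have h3 : a - b + (b - a) = b - a := by omega
        rw [h3]
        exact (Nat.modEq_iff_dvd' h).1 h0
      · have h3 : a - b + (b - a) = a - b := by omega
        rw [h3]
        exact (Nat.modEq_iff_dvd' h).1 h0.symm
    obtain ⟨k, hk⟩ := hdvd
    have hk1 := fun h => h2 p hp hp2 hpy k h hk
    have hk0 : k ≠ 0 := by
      rintro rfl
      rw [hk, mul_zero] at o2
      exact absurd o2 (by decide)
    have hk2 : k = 1 := by
      by_contra h
      exact hk1 (by omega)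
    subst hk2
    rw [hd] at hk
    omega

lemma par {lo n y a b : ℕ} (h : Rl lo n y a b) (ha : Even a) (hb : Even b) : (a + b) % 4 = 2 := by
  obtain ⟨-, ⟨o1, -, -, -⟩, -⟩ := h
  rw [Nat.odd_iff] at o1
  rw [Nat.even_iff] at ha hb
  omega

/-- the class of the first vertex -/
def Ra (a : ℕ) : Prop := 100 ≤ a ∧ a % 12 = 0 ∧ a % 5 = 1 ∧ a % 7 = 2 ∧ a % 11 = 0 ∧ a % 13 = 0 ∧
  a % 17 = 0

/-- the class of the second vertex -/
def Rd (d : ℕ) : Prop := 100 ≤ d ∧ d % 12 = 6 ∧ d % 5 = 1 ∧ d % 7 = 1 ∧ d % 11 = 4 ∧ d % 13 = 10 ∧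
  d % 17 = 16

lemma nb1 {lo n y a b : ℕ} (hy : 17 ≤ y) (ha : Ra a) (hb : Even b) (h1 : Rl lo n y a b) :
    (b % 4 = 2 ∧ b % 3 ≠ 0 ∧ b % 5 ≠ 4) ∧ (b % 5 = 1 → b = a + 10 ∨ a = b + 10) ∧ b ≠ 2 := by
  obtain ⟨a0, a1, a2, a3, -, -, -⟩ := ha
  have e1 : Even a := by rw [Nat.even_iff]; omega
  have q1 := par h1 e1 hb
  refine ⟨⟨?_, ?_, ?_⟩, ?_, ?_⟩
  · omega
  · intro h
    have := (fact h1 e1 hb 3 (by norm_num) (by norm_num) (by omega)).1 (by omega)
    omega
  · intro h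
    have := (fact h1 e1 hb 5 (by norm_num) (by norm_num) (by omega)).1 (by omega)
    omega
  · intro h
    have := (fact h1 e1 hb 5 (by norm_num) (by norm_num) (by omega)).2 (by omega)
    omega
  · rintro rfl
    have := (fact h1 e1 hb 7 (by norm_num) (by norm_num) (by omega)).2 (by omega)
    omega

lemma nb1' {lo n y a b d : ℕ} (hy : 17 ≤ y) (ha : Ra a) (hd : Rd d) (hb : Even b)
    (h1 : Rl lo n y a b) : b ≠ d + 16 ∧ b ≠ d + 4 ∧ b + 4 ≠ d ∧ b + 16 ≠ d := by
  have e1 : Even a := by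
    have := ha.2.1
    rw [Nat.even_iff]; omega
  have key : ∀ p : ℕ, p ≤ 17 → a + b ≠ 2 * p := by
    intro p hp h
    have := ha.1
    omega
  refine ⟨?_, ?_, ?_, ?_⟩
  · intro h
    refine key 13 (by norm_num) ((fact h1 e1 hb 13 (by norm_num) (by norm_num) (by omega)).1 ?_)
    obtain ⟨-, -, -, -, -, a5, -⟩ := ha
    obtain ⟨-, -, -, -, -, d5, -⟩ := hd
    omega
  · intro h
    refine key 7 (by norm_num) ((fact h1 e1 hb 7 (by norm_num) (by norm_num) (by omega)).1 ?_)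
    obtain ⟨-, -, -, a5, -, -, -⟩ := ha
    obtain ⟨-, -, -, d5, -, -, -⟩ := hd
    omega
  · intro h
    refine key 11 (by norm_num) ((fact h1 e1 hb 11 (by norm_num) (by norm_num) (by omega)).1 ?_)
    obtain ⟨-, -, -, -, a5, -, -⟩ := ha
    obtain ⟨-, -, -, -, d5, -, -⟩ := hd
    omega
  · intro h
    refine key 17 (by norm_num) ((fact h1 e1 hb 17 (by norm_num) (by norm_num) (by omega)).1 ?_)
    obtain ⟨-, -, -, -, -, -, a5⟩ := ha
    obtain ⟨-, -, -, -, -, -, d5⟩ := hd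
    omega

lemma nb2 {lo n y d c : ℕ} (hy : 17 ≤ y) (hd : Rd d) (hc : Even c) (h1 : Rl lo n y c d) :
    (c % 4 = 0 ∧ c % 3 ≠ 0 ∧ c % 5 ≠ 4) ∧ (c % 5 = 1 → c = d + 10 ∨ d = c + 10) := by
  obtain ⟨a0, a1, a2, a3, -, -, -⟩ := hd
  have e1 : Even d := by rw [Nat.even_iff]; omega
  have q1 := par h1 hc e1
  refine ⟨⟨?_, ?_, ?_⟩, ?_⟩
  · omega
  · intro h
    have := (fact h1 hc e1 3 (by norm_num) (by norm_num) (by omega)).1 (by omega)
    omega
  · intro h
    have := (fact h1 hc e1 5 (by norm_num) (by norm_num) (by omega)).1 (by omega)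
    omega
  · intro h
    have := (fact h1 hc e1 5 (by norm_num) (by norm_num) (by omega)).2 (by omega)
    omega

lemma nb2' {lo n y a d c : ℕ} (hy : 17 ≤ y) (ha : Ra a) (hd : Rd d) (hc : Even c)
    (h1 : Rl lo n y c d) : c ≠ a + 16 ∧ c ≠ a + 4 ∧ c + 4 ≠ a ∧ c + 16 ≠ a := by
  have e1 : Even d := by
    have := hd.2.1
    rw [Nat.even_iff]; omega
  have key : ∀ p : ℕ, p ≤ 17 → c + d ≠ 2 * p := by
    intro p hp h
    have := hd.1
    omega
  refine ⟨?_, ?_, ?_, ?_⟩
  · intro h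
    refine key 13 (by norm_num) ((fact h1 hc e1 13 (by norm_num) (by norm_num) (by omega)).1 ?_)
    obtain ⟨-, -, -, -, -, a5, -⟩ := ha
    obtain ⟨-, -, -, -, -, d5, -⟩ := hd
    omega
  · intro h
    refine key 7 (by norm_num) ((fact h1 hc e1 7 (by norm_num) (by norm_num) (by omega)).1 ?_)
    obtain ⟨-, -, -, a5, -, -, -⟩ := ha
    obtain ⟨-, -, -, d5, -, -, -⟩ := hd
    omega
  · intro h
    refine key 11 (by norm_num) ((fact h1 hc e1 11 (by norm_num) (by norm_num) (by omega)).1 ?_)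
    obtain ⟨-, -, -, -, a5, -, -⟩ := ha
    obtain ⟨-, -, -, -, d5, -, -⟩ := hd
    omega
  · intro h
    refine key 17 (by norm_num) ((fact h1 hc e1 17 (by norm_num) (by norm_num) (by omega)).1 ?_)
    obtain ⟨-, -, -, -, -, -, a5⟩ := ha
    obtain ⟨-, -, -, -, -, -, d5⟩ := hd
    omega

lemma no3 {lo n y a b c d : ℕ} (hy : 17 ≤ y) (ha : Ra a) (hd : Rd d) (hb : Even b) (hc : Even c)
    (h1 : Rl lo n y a b) (h2 : Rl lo n y b c) (h3 : Rl lo n y c d) : False := by
  obtain ⟨⟨b1, b2, b3⟩, b4, b5⟩ := nb1 hy ha hb h1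
  obtain ⟨⟨c1, c2, c3⟩, c4⟩ := nb2 hy hd hc h3
  have b6 := nb1' hy ha hd hb h1
  have c6 := nb2' hy ha hd hc h3
  have m3 := fact h2 hb hc 3 (by norm_num) (by norm_num) (by omega)
  have m5 := (fact h2 hb hc 5 (by norm_num) (by norm_num) (by omega)).1
  clear h1 h2 h3 hb hc ha hd
  by_cases hs : (b + c) % 3 = 0
  · have h6 := m3.1 hs
    clear m3 m5 b6 c6 b4 c4
    have : b = 2 ∨ b = 6 := by omega
    rcases this with h | h
    · exact b5 h
    · omega
  · have hbc : b % 3 = c % 3 := by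
      clear m3 m5 b4 c4 b5 b6 c6 b3 c3 b1 c1
      have e1 : b % 3 = 1 ∨ b % 3 = 2 := by omega
      have e2 : c % 3 = 1 ∨ c % 3 = 2 := by omega
      rcases e1 with e1 | e1 <;> rcases e2 with e2 | e2 <;> omega
    have h6 := m3.2 hbc
    clear m3 hs
    by_cases hb1 : b % 5 = 1
    · have hb2 := b4 hb1
      clear b4 c4 m5 b6 b1 b2 b3 c1 c2 c3 hbc
      omega
    · by_cases hc1 : c % 5 = 1
      · have hc2 := c4 hc1
        clear b4 c4 m5 c6 b1 b2 b3 c1 c2 c3 hbc
        omega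
      · have hm : (b + c) % 5 = 0 := by
          clear b4 c4 m5 c6 b6 b5 hbc b2 c2
          have e1 : b % 5 = 0 ∨ b % 5 = 2 ∨ b % 5 = 3 := by omega
          rcases e1 with e1 | e1 | e1 <;> rcases h6 with h6 | h6 <;> omega
        have h10 := m5 hm
        clear b4 c4 m5 c6 b6
        omega

section
variable {V : Type} {G : SimpleGraph V}

lemma walk_succ {u v : V} (w : G.Walk u v) {k : ℕ} (h : w.length = k + 1) :
    ∃ x, G.Adj u x ∧ ∃ w' : G.Walk x v, w'.length = k := by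
  cases w with
  | nil => simp at h
  | cons h1 w' => exact ⟨_, h1, w', by simpa using h⟩

end

theorem lower (lo v0 n y : ℕ) (hy : 17 ≤ y) (a d : VT v0 n) (ha : Ra a.1) (hd : Rd d.1)
    (w : (SG lo v0 n y).Walk a d) : 5 ≤ w.length := by
  by_contra hr
  have hlt : w.length < 5 := by omega
  clear hr
  have pp : ∀ u v : VT v0 n, (SG lo v0 n y).Adj u v → (u.1 + v.1) % 4 = 2 :=
    fun u v h => par h u.2.1 v.2.1
  have ha0 := ha.2.1
  have hd0 := hd.2.1
  generalize hk : w.length = k at hlt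
  have hcase : k = 0 ∨ k = 1 ∨ k = 2 ∨ k = 3 ∨ k = 4 := by omega
  rcases hcase with rfl | rfl | rfl | rfl | rfl
  · have := SimpleGraph.Walk.eq_of_length_eq_zero hk
    rw [this] at ha0
    omega
  · obtain ⟨x, h1, w1, hw1⟩ := walk_succ w hk
    have := SimpleGraph.Walk.eq_of_length_eq_zero hw1
    subst this
    have h1' : Rl lo n y a.1 x.1 := h1
    have := (fact h1' a.2.1 x.2.1 3 (by norm_num) (by norm_num) (by omega)).1 (by omega)
    have := ha.1
    omega
  · obtain ⟨x, h1, w1, hw1⟩ := walk_succ w hk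
    obtain ⟨z, h2, w2, hw2⟩ := walk_succ w1 hw1
    have := SimpleGraph.Walk.eq_of_length_eq_zero hw2
    subst this
    have := pp _ _ h1
    have := pp _ _ h2
    omega
  · obtain ⟨x, h1, w1, hw1⟩ := walk_succ w hk
    obtain ⟨z, h2, w2, hw2⟩ := walk_succ w1 hw1
    obtain ⟨t, h3, w3, hw3⟩ := walk_succ w2 hw2
    have := SimpleGraph.Walk.eq_of_length_eq_zero hw3
    subst this
    exact no3 hy ha hd x.2.1 z.2.1 h1 h2 h3
  · obtain ⟨x, h1, w1, hw1⟩ := walk_succ w hk
    obtain ⟨z, h2, w2, hw2⟩ := walk_succ w1 hw1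
    obtain ⟨t, h3, w3, hw3⟩ := walk_succ w2 hw2
    obtain ⟨s, h4, w4, hw4⟩ := walk_succ w3 hw3
    have := SimpleGraph.Walk.eq_of_length_eq_zero hw4
    subst this
    have := pp _ _ h1
    have := pp _ _ h2
    have := pp _ _ h3
    have := pp _ _ h4
    omega

end Pool.Agent.Q102.GG
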