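import Pool.Agent.Q102.GG.Graph

set_option autoImplicit false

/-!
# Goldbach graphs with respect to the small primes: the diameter
-/

namespace Pool.Agent.Q102.GG

open Finset

/-- the vertices -/
abbrev VT (v0 n : ℕ) := {a : ℕ // Even a ∧ v0 ≤ a ∧ a ≤ 2 * n}

/-- the graph -/
def SG (lo v0 n y : ℕ) : SimpleGraph (VT v0 n) where
  Adj a b := Rl lo n y a.1 b.1
  symm := ⟨fun _ _ h => h.symm⟩
  loopless := ⟨fun _ h => h.1 rfl⟩

/-- a walk of length at most `r` -/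
def Wi {V : Type} (G : SimpleGraph V) (r : ℕ) (u v : V) : Prop := ∃ w : G.Walk u v, w.length ≤ r

section
variable {V : Type} {G : SimpleGraph V}

lemma Wi.adj {u v : V} (h : G.Adj u v) : Wi G 1 u v := ⟨SimpleGraph.Walk.cons h .nil, by simp⟩

lemma Wi.trans {u v w : V} {r s : ℕ} (h1 : Wi G r u v) (h2 : Wi G s v w) : Wi G (r + s) u w := by
  obtain ⟨p, hp⟩ := h1
  obtain ⟨q, hq⟩ := h2
  exact ⟨p.append q, by rw [SimpleGraph.Walk.length_append]; omega⟩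

lemma Wi.symm {u v : V} {r : ℕ} (h : Wi G r u v) : Wi G r v u := by
  obtain ⟨p, hp⟩ := h
  exact ⟨p.reverse, by rw [SimpleGraph.Walk.length_reverse]; exact hp⟩

lemma Wi.mono {u v : V} {r s : ℕ} (h : Wi G r u v) (hrs : r ≤ s) : Wi G s u v := by
  obtain ⟨p, hp⟩ := h
  exact ⟨p, hp.trans hrs⟩

end

lemma card_near (a : ℕ) : (Icc (a - 12) (a + 12)).card ≤ 25 := by
  rw [Nat.card_Icc]; omega

lemma Cm.even {r s : ℕ} (h : Cm r s) : s % 2 = 0 ∧ s < 12 := by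
  rcases h with ⟨h3, h4 | h4⟩ | ⟨h3 | h3, h4⟩ | ⟨h3 | h3, h4⟩ | ⟨h3, h4 | h4⟩ <;> omega

theorem upper : ∃ C : ℕ, 1 ≤ C ∧ ∀ lo v0 n y : ℕ, lo ≤ 3 → v0 ≤ 2 →
    C * (y + 2) ^ C ≤ 2 * n - 6 → ∀ u v : VT v0 n, Wi (SG lo v0 n y) 5 u v := by
  obtain ⟨C, hC, H⟩ := pick
  refine ⟨C, hC, ?_⟩
  intro lo v0 n y hlo hv0 hX
  -- a common neighbour
  have two : ∀ (a b : VT v0 n) (r : ℕ), Cm (a.1 % 12) r → Cm (b.1 % 12) r →
      Wi (SG lo v0 n y) 2 a b := by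
    intro a b r ha hb
    obtain ⟨x, hx1, hx2, hx3, hx4, hx5⟩ := H y (2 * n - 6) r {(a.1 : ℤ), -(a.1 : ℤ), (b.1 : ℤ), -(b.1 : ℤ)}
      (Icc (a.1 - 12) (a.1 + 12) ∪ Icc (b.1 - 12) (b.1 + 12)) (card_le_four) (by
        refine (card_union_le _ _).trans ?_
        have := card_near a.1
        have := card_near b.1
        omega) hX
    obtain ⟨he, hr⟩ := ha.even
    have hx4' : x % 12 = r := by rw [hx4, Nat.mod_eq_of_lt hr]
    rw [mem_union, mem_Icc, mem_Icc] at hx3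
    push Not at hx3
    obtain ⟨hx6, hx7⟩ := hx3
    have ha2 := a.2.2.2
    have hb2 := b.2.2.2
    have hxe : Even x := by rw [Nat.even_iff]; omega
    have hx2' : 2 ≤ x := by
      rw [Nat.even_iff] at hxe
      omega
    let X : VT v0 n := ⟨x, hxe, by omega, by omega⟩
    have e1 : Rl lo n y a.1 x := edge hlo ha2 (by omega) (by rw [hx4']; exact ha) (by omega)
      (hx5 a.1 (by simp)) (hx5 (-a.1) (by simp))
    have e2 : Rl lo n y b.1 x := edge hlo hb2 (by omega) (by rw [hx4']; exact hb) (by omega)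
      (hx5 b.1 (by simp)) (hx5 (-b.1) (by simp))
    exact Wi.trans (Wi.adj (v := X) e1) (Wi.adj (u := X) e2.symm)
  have one : ∀ (a : VT v0 n) (r : ℕ), Cm (a.1 % 12) r →
      ∃ x : VT v0 n, x.1 % 12 = r ∧ (SG lo v0 n y).Adj a x := by
    intro a r ha
    obtain ⟨x, hx1, hx2, hx3, hx4, hx5⟩ := H y (2 * n - 6) r {(a.1 : ℤ), -(a.1 : ℤ)}
      (Icc (a.1 - 12) (a.1 + 12)) (card_le_two.trans (by norm_num)) (by
        have := card_near a.1
        omega) hX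
    obtain ⟨he, hr⟩ := ha.even
    have hx4' : x % 12 = r := by rw [hx4, Nat.mod_eq_of_lt hr]
    rw [mem_Icc] at hx3
    push Not at hx3
    have ha2 := a.2.2.2
    have hxe : Even x := by rw [Nat.even_iff]; omega
    have hx2' : 2 ≤ x := by
      rw [Nat.even_iff] at hxe
      omega
    have e1 : Rl lo n y a.1 x := edge hlo ha2 (by omega) (by rw [hx4']; exact ha) (by omega)
      (hx5 a.1 (by simp)) (hx5 (-a.1) (by simp))
    exact ⟨⟨x, hxe, by omega, by omega⟩, hx4', e1⟩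
  have bridge1 : ∀ a : VT v0 n, a.1 % 12 = 0 → ∃ b c : VT v0 n, b.1 % 12 = 2 ∧ c.1 % 12 = 8 ∧
      (SG lo v0 n y).Adj a b ∧ (SG lo v0 n y).Adj b c := by
    intro a ha
    obtain ⟨x, hx1, hx2, hx3, hx4, hx5⟩ := H y (2 * n - 6) 2 {(a.1 : ℤ), -(a.1 : ℤ), -3}
      (Icc (a.1 - 12) (a.1 + 12)) (card_le_three.trans (by norm_num)) (by
        have := card_near a.1
        omega) hX
    rw [mem_Icc] at hx3
    push Not at hx3
    have ha2 := a.2.2.2
    have hx4' : x % 12 = 2 := hx4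
    have e1 : Rl lo n y a.1 x := edge hlo ha2 (by omega)
      (by rw [hx4', ha]; exact Or.inl ⟨rfl, Or.inl rfl⟩) (by omega)
      (hx5 a.1 (by simp)) (hx5 (-a.1) (by simp))
    have e2 : Rl lo n y x (x + 6) := edge6 hlo hx1 (by omega) hx4' (hx5 (-3) (by simp))
    have hx6 : (x + 6) % 12 = 8 := by omega
    exact ⟨⟨x, by rw [Nat.even_iff]; omega, by omega, by omega⟩,
      ⟨x + 6, by rw [Nat.even_iff]; omega, by omega, by omega⟩, hx4', hx6, e1, e2⟩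
  have bridge0 : ∃ b c : VT v0 n, b.1 % 12 = 2 ∧ c.1 % 12 = 8 ∧ (SG lo v0 n y).Adj b c := by
    obtain ⟨x, hx1, hx2, hx3, hx4, hx5⟩ := H y (2 * n - 6) 2 {-3} ∅ (by simp) (by simp) hX
    have hx4' : x % 12 = 2 := hx4
    have e2 : Rl lo n y x (x + 6) := edge6 hlo hx1 (by omega) hx4' (hx5 (-3) (by simp))
    have hx6 : (x + 6) % 12 = 8 := by omega
    exact ⟨⟨x, by rw [Nat.even_iff]; omega, by omega, by omega⟩,
      ⟨x + 6, by rw [Nat.even_iff]; omega, by omega, by omega⟩, hx4', hx6, e2⟩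
  have bridge2 : ∀ d : VT v0 n, d.1 % 12 = 6 → ∃ b c : VT v0 n, b.1 % 12 = 2 ∧ c.1 % 12 = 8 ∧
      (SG lo v0 n y).Adj b c ∧ (SG lo v0 n y).Adj c d := by
    intro d hd
    obtain ⟨x, hx1, hx2, hx3, hx4, hx5⟩ := H y (2 * n - 6) 2 {(d.1 : ℤ) - 6, -(d.1 : ℤ) - 6, -3}
      (Icc (d.1 - 12) (d.1 + 12)) (card_le_three.trans (by norm_num)) (by
        have := card_near d.1
        omega) hX
    rw [mem_Icc] at hx3
    push Not at hx3
    have hd2 := d.2.2.2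
    have hx4' : x % 12 = 2 := hx4
    have hx6 : (x + 6) % 12 = 8 := by omega
    have e2 : Rl lo n y x (x + 6) := edge6 hlo hx1 (by omega) hx4' (hx5 (-3) (by simp))
    have e3 : Rl lo n y (x + 6) d.1 := by
      refine Rl.symm (edge hlo hd2 (by omega) ?_ (by omega) ?_ ?_)
      · rw [hx6, hd]
        exact Or.inr (Or.inr (Or.inr ⟨rfl, Or.inr rfl⟩))
      · intro p hp h5 hpy
        have := hx5 ((d.1 : ℤ) - 6) (by simp) p hp h5 hpy
        have e : ((x + 6 : ℕ) : ℤ) - d.1 = x - ((d.1 : ℤ) - 6) := by push_cast; ring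
        rw [e]
        exact this
      · intro p hp h5 hpy
        have := hx5 (-(d.1 : ℤ) - 6) (by simp) p hp h5 hpy
        have e : ((x + 6 : ℕ) : ℤ) - (-d.1) = x - (-(d.1 : ℤ) - 6) := by push_cast; ring
        rw [e]
        exact this
    exact ⟨⟨x, by rw [Nat.even_iff]; omega, by omega, by omega⟩,
      ⟨x + 6, by rw [Nat.even_iff]; omega, by omega, by omega⟩, hx4', hx6, e2, e3⟩
  -- the types
  have hA : Cm 0 2 := Or.inl ⟨rfl, Or.inl rfl⟩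
  have hB : ∀ a : VT v0 n, a.1 % 12 = 2 ∨ a.1 % 12 = 10 → Cm (a.1 % 12) 0 :=
    fun a h => Or.inr (Or.inl ⟨h, rfl⟩)
  have hC' : ∀ a : VT v0 n, a.1 % 12 = 4 ∨ a.1 % 12 = 8 → Cm (a.1 % 12) 6 :=
    fun a h => Or.inr (Or.inr (Or.inl ⟨h, rfl⟩))
  have hD : Cm 6 4 := Or.inr (Or.inr (Or.inr ⟨rfl, Or.inl rfl⟩))
  have AA : ∀ u v : VT v0 n, u.1 % 12 = 0 → v.1 % 12 = 0 → Wi (SG lo v0 n y) 2 u v :=
    fun u v hu hv => two u v 2 (by rw [hu]; exact hA) (by rw [hv]; exact hA)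
  have BB : ∀ u v : VT v0 n, (u.1 % 12 = 2 ∨ u.1 % 12 = 10) → (v.1 % 12 = 2 ∨ v.1 % 12 = 10) →
      Wi (SG lo v0 n y) 2 u v := fun u v hu hv => two u v 0 (hB u hu) (hB v hv)
  have CC : ∀ u v : VT v0 n, (u.1 % 12 = 4 ∨ u.1 % 12 = 8) → (v.1 % 12 = 4 ∨ v.1 % 12 = 8) →
      Wi (SG lo v0 n y) 2 u v := fun u v hu hv => two u v 6 (hC' u hu) (hC' v hv)
  have DD : ∀ u v : VT v0 n, u.1 % 12 = 6 → v.1 % 12 = 6 → Wi (SG lo v0 n y) 2 u v :=
    fun u v hu hv => two u v 4 (by rw [hu]; exact hD) (by rw [hv]; exact hD)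
  have AB : ∀ u v : VT v0 n, u.1 % 12 = 0 → (v.1 % 12 = 2 ∨ v.1 % 12 = 10) →
      Wi (SG lo v0 n y) 3 u v := by
    intro u v hu hv
    obtain ⟨x, hx, hux⟩ := one u 2 (by rw [hu]; exact hA)
    exact (Wi.adj hux).trans (BB x v (Or.inl hx) hv)
  have CD : ∀ u v : VT v0 n, (u.1 % 12 = 4 ∨ u.1 % 12 = 8) → v.1 % 12 = 6 →
      Wi (SG lo v0 n y) 3 u v := by
    intro u v hu hv
    obtain ⟨x, hx, hux⟩ := one u 6 (hC' u hu)
    exact (Wi.adj hux).trans (DD x v hx hv)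
  have AC : ∀ u v : VT v0 n, u.1 % 12 = 0 → (v.1 % 12 = 4 ∨ v.1 % 12 = 8) →
      Wi (SG lo v0 n y) 4 u v := by
    intro u v hu hv
    obtain ⟨b, c, -, hc, h1, h2⟩ := bridge1 u hu
    exact ((Wi.adj h1).trans (Wi.adj h2)).trans (CC c v (Or.inr hc) hv)
  have AD : ∀ u v : VT v0 n, u.1 % 12 = 0 → v.1 % 12 = 6 → Wi (SG lo v0 n y) 5 u v := by
    intro u v hu hv
    obtain ⟨b, c, -, hc, h1, h2⟩ := bridge1 u hu
    exact ((Wi.adj h1).trans (Wi.adj h2)).trans (CD c v (Or.inr hc) hv)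
  have BC : ∀ u v : VT v0 n, (u.1 % 12 = 2 ∨ u.1 % 12 = 10) → (v.1 % 12 = 4 ∨ v.1 % 12 = 8) →
      Wi (SG lo v0 n y) 5 u v := by
    intro u v hu hv
    obtain ⟨b, c, hb, hc, h1⟩ := bridge0
    exact ((BB u b hu (Or.inl hb)).trans (Wi.adj h1)).trans (CC c v (Or.inr hc) hv)
  have BD : ∀ u v : VT v0 n, (u.1 % 12 = 2 ∨ u.1 % 12 = 10) → v.1 % 12 = 6 →
      Wi (SG lo v0 n y) 4 u v := by
    intro u v hu hv
    obtain ⟨b, c, hb, hc, h1, h2⟩ := bridge2 v hv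
    exact ((BB u b hu (Or.inl hb)).trans (Wi.adj h1)).trans (Wi.adj h2)
  have ty : ∀ u : VT v0 n, u.1 % 12 = 0 ∨ (u.1 % 12 = 2 ∨ u.1 % 12 = 10) ∨
      (u.1 % 12 = 4 ∨ u.1 % 12 = 8) ∨ u.1 % 12 = 6 := by
    intro u
    have := u.2.1
    rw [Nat.even_iff] at this
    omega
  intro u v
  rcases ty u with hu | hu | hu | hu <;> rcases ty v with hv | hv | hv | hv
  · exact (AA u v hu hv).mono (by norm_num)
  · exact (AB u v hu hv).mono (by norm_num)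
  · exact (AC u v hu hv).mono (by norm_num)
  · exact AD u v hu hv
  · exact (AB v u hv hu).symm.mono (by norm_num)
  · exact (BB u v hu hv).mono (by norm_num)
  · exact BC u v hu hv
  · exact (BD u v hu hv).mono (by norm_num)
  · exact (AC v u hv hu).symm.mono (by norm_num)
  · exact (BC v u hv hu).symm
  · exact (CC u v hu hv).mono (by norm_num)
  · exact (CD u v hu hv).mono (by norm_num)
  · exact (AD v u hv hu).symm
  · exact (BD v u hv hu).symm.mono (by norm_num)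
  · exact (CD v u hv hu).symm.mono (by norm_num)
  · exact (DD u v hu hv).mono (by norm_num)

end Pool.Agent.Q102.GG
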