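import Pool.Agent.Y151.HS.FLC

set_option autoImplicit false

/-!
# Integers in a class modulo 12 which avoid four classes modulo all small primes
-/

namespace Pool.Agent.Q102.GG

open Finset Pool.Agent.Y843.HS

lemma mem_aux {A : Finset ℕ} {q : ℕ → Prop} {inst : DecidablePred q} {x : ℕ}
    (h : x ∈ @Finset.filter ℕ q inst A) : x ∈ A ∧ q x := (@Finset.mem_filter ℕ q inst A x).1 h

lemma exists_scale (y : ℕ) : ∃ J : ℕ, y ≤ 2 ^ 2 ^ J ∧ 2 ^ 2 ^ J ≤ (y + 2) ^ 2 := by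
  classical
  have hex : ∃ J : ℕ, y ≤ 2 ^ 2 ^ J := by
    refine ⟨y, ?_⟩
    have h1 : y < 2 ^ y := Nat.lt_two_pow_self
    have h2 : 2 ^ y ≤ 2 ^ 2 ^ y := Nat.pow_le_pow_right (by norm_num) h1.le
    omega
  refine ⟨Nat.find hex, Nat.find_spec hex, ?_⟩
  rcases Nat.eq_zero_or_pos (Nat.find hex) with h | h
  · rw [h, pow_zero, pow_one]
    calc 2 ≤ 2 ^ 2 := by norm_num
      _ ≤ (y + 2) ^ 2 := Nat.pow_le_pow_left (by omega) 2
  · obtain ⟨j, hj⟩ : ∃ j, Nat.find hex = j + 1 := ⟨Nat.find hex - 1, by omega⟩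
    have h1 : ¬ y ≤ 2 ^ 2 ^ j := Nat.find_min hex (by omega)
    push Not at h1
    rw [hj, pow_succ, pow_mul]
    exact Nat.pow_le_pow_left (by omega) 2

lemma tele {z : ℕ} (hz : 4 ≤ z) :
    ∏ m ∈ Ioc 4 z, (1 - 4 / (m : ℝ)) = 24 / ((z : ℝ) * (z - 1) * (z - 2) * (z - 3)) := by
  induction z, hz using Nat.le_induction with
  | base => norm_num
  | succ z hz ih =>
    rw [← Finset.insert_Ioc_right_eq_Ioc_add_one (by omega), prod_insert (by simp), ih]
    have h1 : (4 : ℝ) ≤ z := by exact_mod_cast hz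
    have h2 : (z : ℝ) ≠ 0 := by linarith
    have h3 : (z : ℝ) - 1 ≠ 0 := by linarith
    have h4 : (z : ℝ) - 2 ≠ 0 := by linarith
    have h5 : (z : ℝ) - 3 ≠ 0 := by linarith
    have h6 : (z : ℝ) + 1 ≠ 0 := by linarith
    push_cast
    have e1 : (z : ℝ) + 1 - 1 = z := by ring
    have e2 : (z : ℝ) + 1 - 2 = z - 1 := by ring
    have e3 : (z : ℝ) + 1 - 3 = z - 2 := by ring
    rw [e1, e2, e3]
    field_simp
    ring

lemma prod_ge {s z : ℕ} (hs : 4 ≤ s) (Om : ℕ → Finset ℕ) (hO : ∀ p ∈ Pr s z, (Om p).card ≤ 4) :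
    1 / ((z : ℝ) + 1) ^ 4 ≤ ∏ p ∈ Pr s z, (1 - ((Om p).card : ℝ) / p) := by
  have hz0 : (0 : ℝ) ≤ z := Nat.cast_nonneg z
  rcases Nat.lt_or_ge z 4 with hz | hz
  · have : Pr s z = ∅ := by
      unfold Pr
      rw [Ioc_eq_empty (by omega), filter_empty]
    rw [this, prod_empty, div_le_one (by positivity)]
    exact one_le_pow₀ (by linarith)
  have hsub : Pr s z ⊆ Ioc 4 z := by
    intro p hp
    unfold Pr at hp
    rw [mem_filter, mem_Ioc] at hp
    rw [mem_Ioc]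
    omega
  have h1 : ∏ p ∈ Pr s z, (1 - 4 / (p : ℝ)) ≤ ∏ p ∈ Pr s z, (1 - ((Om p).card : ℝ) / p) := by
    apply prod_le_prod
    · intro p hp
      have := mem_Ioc.1 (hsub hp)
      have h2 : (4 : ℝ) < p := by exact_mod_cast this.1
      rw [sub_nonneg, div_le_one (by linarith)]
      exact h2.le
    · intro p hp
      have : ((Om p).card : ℝ) ≤ 4 := by exact_mod_cast hO p hp
      have := div_le_div_of_nonneg_right this (Nat.cast_nonneg p)
      linarith
  have h2 : ∏ m ∈ Ioc 4 z, (1 - 4 / (m : ℝ)) ≤ ∏ p ∈ Pr s z, (1 - 4 / (p : ℝ)) := by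
    rw [← prod_sdiff hsub]
    apply mul_le_of_le_one_left
    · apply prod_nonneg
      intro p hp
      have := mem_Ioc.1 (hsub hp)
      have h2 : (4 : ℝ) < p := by exact_mod_cast this.1
      rw [sub_nonneg, div_le_one (by linarith)]
      exact h2.le
    · apply prod_le_one
      · intro p hp
        have := mem_Ioc.1 (mem_sdiff.1 hp).1
        have h2 : (4 : ℝ) < p := by exact_mod_cast this.1
        rw [sub_nonneg, div_le_one (by linarith)]
        exact h2.le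
      · intro p hp
        have : 0 ≤ 4 / (p : ℝ) := by positivity
        linarith
  refine le_trans ?_ (h2.trans h1)
  rw [tele hz]
  have h4 : (4 : ℝ) ≤ z := by exact_mod_cast hz
  have p0 : (0 : ℝ) < z := by linarith
  have p1 : (0 : ℝ) < (z : ℝ) - 1 := by linarith
  have p2 : (0 : ℝ) < (z : ℝ) - 2 := by linarith
  have p3 : (0 : ℝ) < (z : ℝ) - 3 := by linarith
  rw [div_le_div_iff₀ (by positivity) (by positivity)]
  have q1 : (z : ℝ) * (z - 1) ≤ ((z : ℝ) + 1) * (z + 1) := by nlinarith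
  have q2 : ((z : ℝ) - 2) * (z - 3) ≤ ((z : ℝ) + 1) * (z + 1) := by nlinarith
  have q3 : ((z : ℝ) * (z - 1)) * (((z : ℝ) - 2) * (z - 3)) ≤
      (((z : ℝ) + 1) * (z + 1)) * (((z : ℝ) + 1) * (z + 1)) :=
    mul_le_mul q1 q2 (by positivity) (by positivity)
  nlinarith [pow_pos (show (0 : ℝ) < (z : ℝ) + 1 by linarith) 4]

/-- **the sieve** -/
theorem sieve4 (K : ℕ) : ∃ C : ℕ, 1 ≤ C ∧ ∀ (y X r : ℕ) (Om : ℕ → Finset ℕ),
    (∀ p : ℕ, p.Prime → 5 ≤ p → p ≤ y → (Om p).card ≤ 4) → C * (y + 2) ^ C ≤ X →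
    ∃ T : Finset ℕ, K ≤ T.card ∧ T ⊆ Icc 1 X ∧ ∀ x ∈ T, x % 12 = r % 12 ∧
      ∀ p : ℕ, p.Prime → 5 ≤ p → p ≤ y → x % p ∉ Om p := by
  classical
  obtain ⟨C0, hC0, H⟩ := Pool.Agent.Y151.HS.flc
  set s : ℕ := C0 * (4 + 1) with hs
  set t : Finset ℕ := insert 12 ((Icc 5 s).filter Nat.Prime) with ht
  set D : ℕ := ∏ i ∈ t, i with hD
  have htpos : ∀ i ∈ t, i ≠ 0 := by
    intro i hi
    rw [ht, mem_insert, mem_filter] at hi
    rcases hi with rfl | hi
    · norm_num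
    · exact hi.2.ne_zero
  have hD1 : 1 ≤ D := Nat.pos_of_ne_zero (prod_ne_zero_iff.2 htpos)
  set C : ℕ := 2 * D * (K + 1) * 2 ^ 4 + (8 + 2 * (C0 * s)) with hC
  refine ⟨C, by omega, ?_⟩
  intro y X r Om hOm hX
  obtain ⟨J, hJ1, hJ2⟩ := exists_scale y
  set z : ℕ := 2 ^ 2 ^ J with hz
  have hs5 : 5 ≤ s := by omega
  -- residues modulo the small primes
  have hres : ∀ p : ℕ, ∃ c : ℕ, p.Prime → 5 ≤ p → (p ≤ y → c % p ∉ Om p) := by
    intro p
    by_cases hp : p.Prime ∧ 5 ≤ p ∧ p ≤ y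
    · obtain ⟨hp1, hp2, hp3⟩ := hp
      have hlt : (Om p).card < (range p).card := by
        rw [card_range]
        have := hOm p hp1 hp2 hp3
        omega
      obtain ⟨c, hc1, hc2⟩ := exists_mem_notMem_of_card_lt_card hlt
      rw [mem_range] at hc1
      exact ⟨c, fun _ _ _ => by rwa [Nat.mod_eq_of_lt hc1]⟩
    · exact ⟨0, fun h1 h2 h3 => absurd ⟨h1, h2, h3⟩ hp⟩
  choose c hc using hres
  have hpp : Set.Pairwise (t : Set ℕ) (Function.onFun Nat.Coprime id) := by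
    intro i hi j hj hij
    rw [mem_coe, ht, mem_insert, mem_filter, mem_Icc] at hi hj
    simp only [Function.onFun, id]
    have h12 : ∀ q : ℕ, q.Prime → 5 ≤ q → Nat.Coprime 12 q := by
      intro q hq hq5
      rw [Nat.coprime_comm, hq.coprime_iff_not_dvd]
      intro hd
      have h3 := Nat.le_of_dvd (by norm_num) hd
      interval_cases q <;> first | omega | (revert hq; norm_num)
    rcases hi with rfl | hi <;> rcases hj with rfl | hj
    · exact absurd rfl hij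
    · exact h12 j hj.2 hj.1.1
    · exact (h12 i hi.2 hi.1.1).symm
    · exact (Nat.coprime_primes hi.2 hj.2).2 hij
  obtain ⟨a, ha⟩ := Nat.chineseRemainderOfFinset (fun i => if i = 12 then r else c i) id t htpos hpp
  have ha12 : a % 12 = r % 12 := by
    have := ha 12 (by rw [ht]; exact mem_insert_self _ _)
    simpa [Nat.ModEq] using this
  have hap : ∀ p : ℕ, p.Prime → 5 ≤ p → p ≤ s → p ≤ y → a % p ∉ Om p := by
    intro p hp hp5 hps hpy
    have h1 := ha p (by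
      rw [ht, mem_insert, mem_filter, mem_Icc]
      exact Or.inr ⟨⟨hp5, hps⟩, hp⟩)
    have hne : p ≠ 12 := by
      rintro rfl
      revert hp
      norm_num
    simp only [hne, if_false, id] at h1
    have h2 : a % p = c p % p := h1
    rw [h2]
    exact hc p hp hp5 hpy
  set Om' : ℕ → Finset ℕ := fun p => if p ≤ y then (Om p).filter (· < p) else ∅ with hOm'
  have hPr : ∀ p ∈ Pr s z, p.Prime ∧ s < p ∧ p ≤ z := by
    intro p hp
    unfold Pr at hp
    rw [mem_filter, mem_Ioc] at hp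
    exact ⟨hp.2, hp.1.1, hp.1.2⟩
  have hSv : Sv 4 s z Om' := by
    intro p hp
    obtain ⟨h1, h2, h3⟩ := hPr p hp
    simp only [hOm']
    split_ifs with h4
    · refine ⟨(card_filter_le _ _).trans (hOm p h1 (by omega) h4), ?_⟩
      intro c hc
      exact (mem_filter.1 hc).2
    · simp
  have hpD : ∀ p ∈ Pr s z, ¬ p ∣ D := by
    intro p hp hd
    obtain ⟨h1, h2, h3⟩ := hPr p hp
    rw [hD, h1.prime.dvd_finsetProd_iff] at hd
    obtain ⟨i, hi, hpi⟩ := hd
    rw [ht, mem_insert, mem_filter, mem_Icc] at hi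
    rcases hi with rfl | hi
    · have h4 := Nat.le_of_dvd (by norm_num) hpi
      interval_cases p <;> first | omega | (revert h1; norm_num)
    · have := (Nat.prime_dvd_prime_iff_eq h1 hi.2).1 hpi
      omega
  have hmain := H 4 s s J le_rfl le_rfl Om' hSv D a 0 X hD1 hpD
  set T : Finset ℕ := (Ioc 0 (0 + X)).filter (fun x => x % D = a % D ∧
      ∀ p ∈ Pr s (2 ^ 2 ^ J), x % p ∉ Om' p) with hT
  set Q1 := ∏ p ∈ Pr s (2 ^ 2 ^ J), (1 - ((Om' p).card : ℝ) / p) with hQ1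
  have hQ11 : 1 / ((z : ℝ) + 1) ^ 4 ≤ Q1 := prod_ge (by omega) Om' (fun p hp => (hSv p hp).1)
  have hDR : (0 : ℝ) < D := by exact_mod_cast hD1
  have hQ10 : 0 < Q1 := lt_of_lt_of_le (by positivity) hQ11
  have hhalf : (1 / 2 : ℝ) ^ s ≤ 1 / 2 := by
    calc (1 / 2 : ℝ) ^ s ≤ (1 / 2 : ℝ) ^ 1 :=
          pow_le_pow_of_le_one (by norm_num) (by norm_num) (by omega)
      _ = 1 / 2 := by norm_num
  have hlow : (X : ℝ) / D * Q1 / 2 - ((2 : ℝ) ^ 2 ^ J) ^ (C0 * s) ≤ T.card := by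
    have h1 := (abs_le.1 hmain).1
    have h2 : 0 ≤ (X : ℝ) / D * Q1 := by positivity
    nlinarith
  have hzR : ((2 : ℝ) ^ 2 ^ J) = z := by rw [hz]; push_cast; rfl
  have hy2 : (1 : ℝ) ≤ (y : ℝ) + 2 := by
    have : (0 : ℝ) ≤ y := Nat.cast_nonneg y
    linarith
  have hz2 : (z : ℝ) ≤ ((y : ℝ) + 2) ^ 2 := by exact_mod_cast hJ2
  have hz1 : (1 : ℝ) ≤ z := by
    rw [← hzR]
    exact one_le_pow₀ (by norm_num)
  have hXR : ((C : ℝ)) * ((y : ℝ) + 2) ^ C ≤ X := by exact_mod_cast hX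
  set w : ℝ := (y : ℝ) + 2 with hw
  have hpow : (z : ℝ) ^ (C0 * s) ≤ w ^ (2 * (C0 * s)) := by
    rw [pow_mul w]
    exact pow_le_pow_left₀ (by linarith) hz2 _
  have hpow1 : (1 : ℝ) ≤ w ^ (2 * (C0 * s)) := one_le_pow₀ hy2
  have hz4 : ((z : ℝ) + 1) ^ 4 ≤ 2 ^ 4 * w ^ 8 := by
    calc ((z : ℝ) + 1) ^ 4 ≤ (2 * w ^ 2) ^ 4 := by
          apply pow_le_pow_left₀ (by linarith)
          linarith
      _ = 2 ^ 4 * w ^ 8 := by ring
  have hneed : 2 * (D : ℝ) * ((z : ℝ) + 1) ^ 4 * ((z : ℝ) ^ (C0 * s) + K) ≤ X := by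
    calc 2 * (D : ℝ) * ((z : ℝ) + 1) ^ 4 * ((z : ℝ) ^ (C0 * s) + K) ≤
        2 * (D : ℝ) * (2 ^ 4 * w ^ 8) * ((K + 1) * w ^ (2 * (C0 * s))) := by
          apply mul_le_mul
          · apply mul_le_mul_of_nonneg_left hz4 (by positivity)
          · have : (K : ℝ) * 1 ≤ K * w ^ (2 * (C0 * s)) :=
              mul_le_mul_of_nonneg_left hpow1 (Nat.cast_nonneg K)
            nlinarith
          · positivity
          · positivity
      _ = (2 * D * (K + 1) * 2 ^ 4) * w ^ (8 + 2 * (C0 * s)) := by rw [pow_add]; ring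
      _ ≤ (C : ℝ) * w ^ C := by
          apply mul_le_mul
          · rw [hC]
            push_cast
            have : (0 : ℝ) ≤ 8 + 2 * ((C0 : ℝ) * s) := by positivity
            linarith
          · apply pow_le_pow_right₀ hy2
            rw [hC]
            omega
          · positivity
          · positivity
      _ ≤ X := hXR
  have hK : (K : ℝ) ≤ T.card := by
    refine le_trans ?_ hlow
    rw [hzR]
    have h1 : (z : ℝ) ^ (C0 * s) + K ≤ (X : ℝ) / D * Q1 / 2 := by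
      rw [div_mul_eq_mul_div, div_div, le_div_iff₀ (by positivity)]
      have h2 : (X : ℝ) * (1 / ((z : ℝ) + 1) ^ 4) ≤ X * Q1 :=
        mul_le_mul_of_nonneg_left hQ11 (Nat.cast_nonneg X)
      refine le_trans ?_ h2
      rw [mul_one_div, le_div_iff₀ (by positivity)]
      have h3 : ((z : ℝ) ^ (C0 * s) + K) * (D * 2) * ((z : ℝ) + 1) ^ 4 =
          2 * (D : ℝ) * ((z : ℝ) + 1) ^ 4 * ((z : ℝ) ^ (C0 * s) + K) := by ring
      rw [h3]
      exact hneed
    linarith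
  refine ⟨T, by exact_mod_cast hK, ?_, ?_⟩
  · intro x hx
    have hx' := mem_aux hx
    have hx1 := mem_Ioc.1 hx'.1
    rw [mem_Icc]
    omega
  · intro x hx
    obtain ⟨-, hxD, hxp⟩ := mem_aux hx
    have hmod : ∀ i ∈ t, x % i = a % i := by
      intro i hi
      have hdvd : i ∣ D := dvd_prod_of_mem _ hi
      have h1 : x ≡ a [MOD D] := hxD
      exact h1.of_dvd hdvd
    constructor
    · rw [hmod 12 (by rw [ht]; exact mem_insert_self _ _), ha12]
    · intro p hp hp5 hpy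
      rcases Nat.lt_or_ge s p with hps | hps
      · have h1 : p ∈ Pr s z := by
          unfold Pr
          rw [mem_filter, mem_Ioc]
          exact ⟨⟨hps, hpy.trans hJ1⟩, hp⟩
        have h2 := hxp p h1
        simp only [hOm', if_pos hpy, mem_filter, not_and] at h2
        intro h3
        exact h2 h3 (Nat.mod_lt _ hp.pos)
      · rw [hmod p (by
          rw [ht, mem_insert, mem_filter, mem_Icc]
          exact Or.inr ⟨⟨hp5, hps⟩, hp⟩)]
        exact hap p hp hp5 hps hpy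

end Pool.Agent.Q102.GG
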